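import Pool.Agent.N436.DF.Stm3

/-!
# Project DF, part DH/32: transport to an infinite type
-/

namespace Pool.Agent.N600.DF

open Finset Pool.Agent.N436.DF

/-- the hub system `H` extended to `V ⊕ ℕ` by isolated vertices -/
def ext {V : Type} (H : Hub V) : Hub (V ⊕ ℕ) where
  c i v := match v with
    | Sum.inl v => H.c i v
    | Sum.inr _ => 0
  r u v := match u, v with
    | Sum.inl u, Sum.inl v => H.r u v
    | Sum.inl _, Sum.inr _ => 0
    | Sum.inr _, _ => 0
  m u v := match u, v with
    | Sum.inl u, Sum.inl v => H.m u v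
    | Sum.inl _, Sum.inr _ => 0
    | Sum.inr _, _ => 0

theorem ext_ok {V : Type} (H : Hub V) (h : Ok P13 H) : Ok P13 (ext H) := by
  refine ⟨?_, ?_, ?_, ?_, ?_, ?_, ?_, ?_, ?_⟩
  · rintro i (v | n)
    · exact h.c_ge i v
    · show (-1 : ℤ) ≤ 0
      norm_num
  · rintro (v | n)
    · exact h.c1_le v
    · show (0 : ℤ) ≤ 1
      norm_num
  · rintro (v | n)
    · exact h.c2_le v
    · show (0 : ℤ) ≤ 3
      norm_num
  · rintro (u | n) (v | m)
    · exact h.r01 u v
    · exact Or.inl rfl
    · exact Or.inl rfl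
    · exact Or.inl rfl
  · rintro (u | n) (v | m)
    · exact h.rsymm u v
    · rfl
    · rfl
    · rfl
  · rintro (v | n)
    · exact h.r0 v
    · rfl
  · rintro (u | n) (v | m)
    · exact h.m_nn u v
    · exact le_refl _
    · exact le_refl _
    · exact le_refl _
  · rintro (u | n) (v | m)
    · exact h.msymm u v
    · rfl
    · rfl
    · rfl
  · rintro (v | n)
    · exact h.m0 v
    · rfl

theorem ext_rho {V : Type} [DecidableEq V] (H : Hub V) (Y : Finset V) :
    rho P13 (ext H) (Y.map Function.Embedding.inl) = rho P13 H Y := by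
  unfold rho
  simp only [Finset.sum_map]
  rfl

theorem inf3 : S3_inf := by
  intro hmain V _ H S hok hhyp
  have h1 : Hyp P13 (ext H) (S.map Function.Embedding.inl) := by
    intro X hX hne
    obtain ⟨Y, hY, rfl⟩ := Finset.subset_map_iff.1 hX
    rw [ext_rho]
    exact hhyp Y hY (Finset.map_nonempty.1 hne)
  obtain ⟨f, p, h⟩ := hmain (V ⊕ ℕ) (ext H) _ (ext_ok H hok) h1
  refine ⟨fun v => f (Sum.inl v), fun u v => p (Sum.inl u) (Sum.inl v), ?_, ?_, ?_⟩
  · intro u v
    exact h.nn _ _
  · intro u hu v hv huv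
    exact h.pay (Sum.inl u) (Finset.mem_map_of_mem _ hu) (Sum.inl v) (Finset.mem_map_of_mem _ hv) huv
  · intro u hu
    have h2 := h.cap (Sum.inl u) (Finset.mem_map_of_mem _ hu)
    unfold load at h2 ⊢
    rw [Finset.sum_map] at h2
    exact h2

end Pool.Agent.N600.DF
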